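import Mathlib

set_option autoImplicit false

/-!
The algebra generated by a space of endomorphisms is spanned by the products of exponentials.
-/

namespace Pool.Agent.Zk62.LieA1

open Module

open scoped InnerProductSpace

variable {V : Type} [NormedAddCommGroup V] [InnerProductSpace ℝ V] [FiniteDimensional ℝ V]

/-- A closed subspace which contains `exp (t X)` for all `t` contains `X`. -/
theorem mem_of_exp {𝒜 : Type*} [NormedRing 𝒜] [NormedAlgebra ℝ 𝒜] [CompleteSpace 𝒜]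
    {S : Submodule ℝ 𝒜} (hS : IsClosed (S : Set 𝒜)) {X : 𝒜}
    (h : ∀ t : ℝ, NormedSpace.exp (t • X) ∈ S) : X ∈ S := by
  have h1 : HasDerivAt (fun t : ℝ => NormedSpace.exp (t • X)) X 0 := by
    have := hasDerivAt_exp_smul_const (𝕂 := ℝ) X (0 : ℝ)
    simpa using this
  have h2 := h1.tendsto_slope_zero
  refine hS.mem_of_tendsto h2 (Filter.Eventually.of_forall fun t => ?_)
  refine S.smul_mem _ (S.sub_mem (h _) (h _))

theorem A1 (𝔤 : Submodule ℝ (V →L[ℝ] V)) :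
    ∃ (s : ℕ) (g : Fin s → Algebra.adjoin ℝ (𝔤 : Set (V →L[ℝ] V)))
      (α : Fin s → (Algebra.adjoin ℝ (𝔤 : Set (V →L[ℝ] V)) →ₗ[ℝ] ℝ)) (C : ℝ),
      (∀ A, ∑ i, α i A • g i = A) ∧ (∀ i A, |α i A| ≤ C * ‖A‖) ∧
      ∀ i, g i ∈ Submonoid.closure {a : Algebra.adjoin ℝ (𝔤 : Set (V →L[ℝ] V)) |
        ∃ X : Algebra.adjoin ℝ (𝔤 : Set (V →L[ℝ] V)), (X : V →L[ℝ] V) ∈ 𝔤 ∧
          a = NormedSpace.exp X} := by
  classical
  haveI : FiniteDimensional ℝ (V →L[ℝ] V) := inferInstance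
  haveI hfd : FiniteDimensional ℝ (Algebra.adjoin ℝ (𝔤 : Set (V →L[ℝ] V))) :=
    FiniteDimensional.finiteDimensional_subalgebra
      (Algebra.adjoin ℝ (𝔤 : Set (V →L[ℝ] V)))
  haveI : CompleteSpace (Algebra.adjoin ℝ (𝔤 : Set (V →L[ℝ] V))) :=
    FiniteDimensional.complete ℝ _
  set 𝒜 := Algebra.adjoin ℝ (𝔤 : Set (V →L[ℝ] V)) with h𝒜
  set M : Set 𝒜 := {a : 𝒜 | ∃ X : 𝒜, (X : V →L[ℝ] V) ∈ 𝔤 ∧ a = NormedSpace.exp X} with hM
  set S : Submodule ℝ 𝒜 := Submodule.span ℝ (Submonoid.closure M : Set 𝒜) with hS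
  have hcl : IsClosed (S : Set 𝒜) := S.closed_of_finiteDimensional
  have hSalg : S = Subalgebra.toSubmodule (Algebra.adjoin ℝ M) :=
    (Algebra.adjoin_eq_span ℝ M).symm
  have hX : ∀ X : 𝒜, (X : V →L[ℝ] V) ∈ 𝔤 → X ∈ S := by
    intro X hX
    refine mem_of_exp hcl fun t => Submodule.subset_span (Submonoid.subset_closure ?_)
    exact ⟨t • X, 𝔤.smul_mem t hX, rfl⟩
  have htop : S = ⊤ := by
    rw [hSalg]
    have h1 : Algebra.adjoin ℝ M = ⊤ := by
      rw [eq_top_iff]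
      have h2 : Algebra.adjoin ℝ (((↑) : 𝒜 → (V →L[ℝ] V)) ⁻¹' (𝔤 : Set (V →L[ℝ] V))) = ⊤ :=
        Algebra.adjoin_adjoin_coe_preimage
      rw [← h2]
      refine Algebra.adjoin_le fun X hXm => ?_
      have h3 := hX X hXm
      rw [hSalg] at h3
      exact h3
    rw [h1]
    rfl
  obtain ⟨b, hb1, hb2, hb3⟩ := exists_linearIndependent ℝ (Submonoid.closure M : Set 𝒜)
  have hspan : ⊤ ≤ Submodule.span ℝ (Set.range ((↑) : b → 𝒜)) := by
    rw [Subtype.range_coe, hb2]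
    exact htop.ge
  let B : Basis b ℝ 𝒜 := Basis.mk hb3 hspan
  haveI : Finite b := hb3.finite
  haveI : Fintype b := Fintype.ofFinite b
  let e : b ≃ Fin (Fintype.card b) := Fintype.equivFin b
  let B' : Basis (Fin (Fintype.card b)) ℝ 𝒜 := B.reindex e
  have hB' : ∀ i, B' i ∈ Submonoid.closure M := by
    intro i
    have : B' i = ((e.symm i : b) : 𝒜) := by
      simp [B', B]
    rw [this]
    exact hb1 (e.symm i).2
  refine ⟨Fintype.card b, B', fun i => B'.coord i,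
    ∑ i, ‖LinearMap.toContinuousLinearMap (B'.coord i)‖, ?_, ?_, hB'⟩
  · intro A
    exact B'.sum_repr A
  · intro i A
    have h1 := (LinearMap.toContinuousLinearMap (B'.coord i)).le_opNorm A
    have h2 : ‖LinearMap.toContinuousLinearMap (B'.coord i)‖ ≤
        ∑ j, ‖LinearMap.toContinuousLinearMap (B'.coord j)‖ :=
      Finset.single_le_sum (f := fun j => ‖LinearMap.toContinuousLinearMap (B'.coord j)‖)
        (fun j _ => ContinuousLinearMap.opNorm_nonneg _) (Finset.mem_univ i)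
    calc |B'.coord i A| = ‖LinearMap.toContinuousLinearMap (B'.coord i) A‖ := by
          rw [Real.norm_eq_abs]; rfl
      _ ≤ _ := h1
      _ ≤ _ := mul_le_mul_of_nonneg_right h2 (norm_nonneg _)

end Pool.Agent.Zk62.LieA1
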