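import Pool.Agent.Zk55.RF.Base2

set_option autoImplicit false

/-!
A return of the words of a strip of lines makes the strip periodic.
-/

namespace Pool.Agent.Zk62.RF

open Complex Set MeasureTheory Filter Topology Pool.Agent.W780.PG Pool.Agent.W780.BB
  Pool.Agent.TH578.BE Pool.Agent.K3h17.BK Pool.Agent.Zk55.CF Pool.Agent.Zk55.RF

open scoped Real ComplexConjugate

variable {n : ℕ} {p : Fin (n + 3) → ℂ} {f : ℂ × ℝ → ℂ}

theorem bounded_step {F : Set ℝ} {A B κ s : ℝ} (hF : ∀ x ∈ F, A < x ∧ x < B)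
    (hs : s ∈ F) (hκ : ∀ x ∈ F, x + κ ∈ F) : κ = 0 := by
  have h1 : ∀ j : ℕ, s + j * κ ∈ F := by
    intro j
    induction j with
    | zero => simpa using hs
    | succ j ih =>
      have := hκ _ ih
      rw [add_assoc] at this
      have e : s + ((j + 1 : ℕ) : ℝ) * κ = s + (j * κ + κ) := by push_cast; ring
      rw [e]
      exact this
  by_contra hne
  rcases lt_or_gt_of_ne hne with h | h
  · obtain ⟨j, hj⟩ := exists_nat_gt ((s - A) / (-κ))
    have h2 := (hF _ (h1 j)).1
    rw [div_lt_iff₀ (by linarith)] at hj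
    nlinarith
  · obtain ⟨j, hj⟩ := exists_nat_gt ((B - s) / κ)
    have h2 := (hF _ (h1 j)).2
    rw [div_lt_iff₀ h] at hj
    nlinarith

theorem per_of_return (hp : IsConvexPolygon p) {θ0 s1 s2 : ℝ} (h12 : s1 < s2)
    {W : ℕ → List (Fin (n + 3))} (hl : ∀ l, (W l).length = l)
    (hRW : ∀ l, ∀ σ ∈ Icc s1 s2, RW p (W l) (θ0, σ))
    (hmeet : ∀ σ ∈ Icc s1 s2, ∃ y ∈ reg p, ph (θ0, σ) y = 0) {l m : ℕ} (hlm : l < m)
    (hev : Even (m - l)) {σ σ' : ℝ} (hσ : σ ∈ Icc s1 s2) (hσ' : σ' ∈ Icc s1 s2) {k : ℤ}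
    (he : fw p (W l) (θ0, σ) =
      ((fw p (W m) (θ0, σ')).1 + 2 * π * k, (fw p (W m) (θ0, σ')).2)) :
    ∃ u, PerStrip p θ0 s1 s2 u := by
  -- prefixes
  have hpre : ∀ a b : ℕ, a ≤ b → (W b).take a = W a := by
    intro a b hab
    have h1 : RW p (W b) (θ0, σ) := hRW b σ hσ
    rw [← List.take_append_drop a (W b)] at h1
    have h2 := RW_prefix h1
    refine RW_uniq hp _ _ (θ0, σ) ?_ h2 (hRW a σ hσ)
    rw [List.length_take, hl, hl]
    omega
  set u := W (m - l) with hu
  have hulen : u.length = m - l := hl _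
  have hsplit : W m = u ++ (W m).drop (m - l) := by
    conv_lhs => rw [← List.take_append_drop (m - l) (W m)]
    rw [hpre (m - l) m (by omega)]
  have h3 : RW p (u ++ (W m).drop (m - l)) (θ0, σ') := by
    rw [← hsplit]
    exact hRW m σ' hσ'
  rw [RW_append] at h3
  have he' := he
  rw [hsplit, fw_append] at he'
  obtain ⟨-, m', hm'⟩ := back_uniq hp (W l) ((W m).drop (m - l)) (θ0, σ) (fw p u (θ0, σ')) k
    (by rw [List.length_drop, hl, hl]; omega) (hRW l σ hσ) h3.2 he'
  have hm1 := congrArg Prod.fst hm'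
  have hm2 := congrArg Prod.snd hm'
  simp only at hm1 hm2
  have hfw : ∀ s : ℝ, fw p u (θ0, s) = (θ0 + 2 * π * ((-m' : ℤ) : ℝ), s + (σ - σ')) := by
    intro s
    obtain ⟨a1, a2⟩ := fw_snd_aff (p := p) u θ0 s σ'
    rw [hulen, hev.neg_one_pow, one_mul] at a1
    ext
    · show _ = _
      rw [a2]
      push_cast
      linarith
    · show _ = _
      simp only
      linarith
  -- the widened strip
  have hstep : ∀ s : ℝ, (∀ j, RW p (W j) (θ0, s)) → ∀ j, RW p (W j) (θ0, s + (σ - σ')) := by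
    have hrest : ∀ j, W ((m - l) + j) = u ++ W j := by
      intro j
      have e1 : W ((m - l) + j) = u ++ (W ((m - l) + j)).drop (m - l) := by
        conv_lhs => rw [← List.take_append_drop (m - l) (W ((m - l) + j))]
        rw [hpre (m - l) ((m - l) + j) (by omega)]
      have e2 := hRW ((m - l) + j) σ' hσ'
      rw [e1, RW_append] at e2
      have e3 := e2.2
      rw [hfw σ'] at e3
      have e4 : RW p ((W ((m - l) + j)).drop (m - l)) (θ0, σ) := by
        have := (RW_per ((W ((m - l) + j)).drop (m - l)) (θ0, σ' + (σ - σ')) (-m')).1 e3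
        rwa [show σ' + (σ - σ') = σ by ring] at this
      have e5 : (W ((m - l) + j)).drop (m - l) = W j := by
        refine RW_uniq hp _ _ (θ0, σ) ?_ e4 (hRW j σ hσ)
        rw [List.length_drop, hl, hl]
        omega
      rw [e1, e5]
    intro s hs j
    have e2 := hs ((m - l) + j)
    rw [hrest j, RW_append] at e2
    have e3 := e2.2
    rw [hfw s] at e3
    exact (RW_per (W j) (θ0, s + (σ - σ')) (-m')).1 e3
  have hκ : σ - σ' = 0 := by
    obtain ⟨i, hi⟩ : ∃ i, W 1 = [i] := List.length_eq_one_iff.1 (hl 1)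
    refine bounded_step (F := {s | ∀ j, RW p (W j) (θ0, s)})
      (A := (conj (dir θ0) * p i).im) (B := (conj (dir θ0) * p (i + 1)).im) (s := σ) ?_
      (fun j => hRW j σ hσ) hstep
    intro x hx
    have h := hx 1
    rw [hi] at h
    obtain ⟨b1, b2, -⟩ := h
    unfold ph at b1 b2
    simp only at b1 b2
    constructor <;> linarith
  refine ⟨u, h12, ?_, ?_, fun s hs => hRW _ s hs, hmeet, -m', fun s => ?_⟩
  · intro h0
    rw [h0] at hulen
    simp at hulen
    omega
  · rw [hulen]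
    exact hev
  · rw [hfw s, hκ, add_zero]

end Pool.Agent.Zk62.RF
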